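import Pool.Agent.N275.QD.Def
import Pool.Agent.R225.LP.ID

set_option autoImplicit false

/-!
# Project QD: which side of a convex quadrilateral disappears first (S_CL, S_CD)
-/

namespace Pool.Agent.N885.QD

open Set Complex
open Pool.Agent.W780.PG (IsConvexPolygon)
open Pool.Agent.R225.LP (ip cr nu co sk sd)
open Pool.Agent.N275.QD (dk Fst ds S_CL S_CD)
open scoped Real ComplexConjugate

lemma core1 (l s s' A B : ℝ) (hl : 0 < l) (hs : s + s' ≤ 0) (hA : 0 ≤ A) (hB : 0 ≤ B) :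
    l ^ 2 ≤ (1 + (max 0 (max s s')) ^ 2) * ((l - s' * B - s * A) ^ 2 + (B - A) ^ 2) := by
  rcases le_total (max s s') 0 with h0 | h0
  · rw [max_eq_left h0]
    have h1 : s ≤ 0 := le_trans (le_max_left _ _) h0
    have h2 : s' ≤ 0 := le_trans (le_max_right _ _) h0
    have h3 : l ≤ l - s' * B - s * A := by nlinarith [mul_nonneg (neg_nonneg.2 h1) hA, mul_nonneg (neg_nonneg.2 h2) hB]
    have h4 : l ^ 2 ≤ (l - s' * B - s * A) ^ 2 := pow_le_pow_left₀ hl.le h3 2
    nlinarith [sq_nonneg (B - A)]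
  · rw [max_eq_right h0]
    rcases le_total s s' with h | h
    · rw [max_eq_right h] at h0 ⊢
      have h3 : l ≤ (l - s' * B - s * A) + s' * (B - A) := by nlinarith [mul_nonneg (neg_nonneg.2 hs) hA]
      have h4 := pow_le_pow_left₀ hl.le h3 2
      have h5 : ((l - s' * B - s * A) + s' * (B - A)) ^ 2 ≤ (1 + s' ^ 2) * ((l - s' * B - s * A) ^ 2 + (B - A) ^ 2) := by
        nlinarith [sq_nonneg (s' * (l - s' * B - s * A) - (B - A))]
      linarith
    · rw [max_eq_left h] at h0 ⊢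
      have h3 : l ≤ (l - s' * B - s * A) - s * (B - A) := by nlinarith [mul_nonneg (neg_nonneg.2 hs) hB]
      have h4 := pow_le_pow_left₀ hl.le h3 2
      have h5 : ((l - s' * B - s * A) - s * (B - A)) ^ 2 ≤ (1 + s ^ 2) * ((l - s' * B - s * A) ^ 2 + (B - A) ^ 2) := by
        nlinarith [sq_nonneg (s * (l - s' * B - s * A) + (B - A))]
      linarith

/-- either the distance is attained at the feet (parameters `A ≤ a`, `B ≤ b`), or one of the other
two vertices is close to the side -/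
lemma core2 (l s s' a b : ℝ) (hl : 0 < l) (ha : 0 < a) (hb : 0 < b) :
    (∃ A B : ℝ, 0 ≤ A ∧ A ≤ a ∧ 0 ≤ B ∧ B ≤ b ∧
      (1 + (max 0 (max s s')) ^ 2) * ((l - s' * B - s * A) ^ 2 + (B - A) ^ 2) = l ^ 2) ∨
    (0 ≤ s * a ∧ s * a ≤ l ∧ (1 + (max 0 (max s s')) ^ 2) * a ^ 2 < l ^ 2) ∨
    (0 ≤ l - s' * b ∧ l - s' * b ≤ l ∧ (1 + (max 0 (max s s')) ^ 2) * b ^ 2 < l ^ 2) := by
  rcases le_total (max s s') 0 with h0 | h0
  · left
    rw [max_eq_left h0]
    exact ⟨0, 0, le_rfl, ha.le, le_rfl, hb.le, by ring⟩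
  · rw [max_eq_right h0]
    rcases le_total s s' with h | h
    · rw [max_eq_right h] at h0 ⊢
      have hp : 0 < 1 + s' ^ 2 := by positivity
      by_cases hb2 : l * s' / (1 + s' ^ 2) ≤ b
      · left
        refine ⟨0, l * s' / (1 + s' ^ 2), le_rfl, ha.le, by positivity, hb2, ?_⟩
        field_simp
        ring
      · right; right
        push Not at hb2
        rw [lt_div_iff₀ hp] at hb2
        have hs0 : 0 < s' := by
          rcases h0.lt_or_eq with h1 | h1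
          · exact h1
          · rw [← h1] at hb2; nlinarith
        have hlb : (s' * b) * (1 + s' ^ 2) < l * s' ^ 2 := by nlinarith
        have h6 : s' * b ≤ l := by
          by_contra h7
          push Not at h7
          nlinarith [sq_nonneg s']
        refine ⟨by linarith, by nlinarith, ?_⟩
        have h8 : (b * (1 + s' ^ 2)) ^ 2 < (l * s') ^ 2 := pow_lt_pow_left₀ hb2 (by positivity) (by norm_num)
        have h9 : (1 + s' ^ 2) * ((1 + s' ^ 2) * b ^ 2) < (1 + s' ^ 2) * l ^ 2 := by nlinarith [sq_nonneg l]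
        exact lt_of_mul_lt_mul_left h9 hp.le
    · rw [max_eq_left h] at h0 ⊢
      have hp : 0 < 1 + s ^ 2 := by positivity
      by_cases hb2 : l * s / (1 + s ^ 2) ≤ a
      · left
        refine ⟨l * s / (1 + s ^ 2), 0, by positivity, hb2, le_rfl, hb.le, ?_⟩
        field_simp
        ring
      · right; left
        push Not at hb2
        rw [lt_div_iff₀ hp] at hb2
        have hs0 : 0 < s := by
          rcases h0.lt_or_eq with h1 | h1
          · exact h1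
          · rw [← h1] at hb2; nlinarith
        have hlb : (s * a) * (1 + s ^ 2) < l * s ^ 2 := by nlinarith
        have h6 : s * a ≤ l := by
          by_contra h7
          push Not at h7
          nlinarith [sq_nonneg s]
        refine ⟨by positivity, by linarith, ?_⟩
        have h8 : (a * (1 + s ^ 2)) ^ 2 < (l * s) ^ 2 := pow_lt_pow_left₀ hb2 (by positivity) (by norm_num)
        have h9 : (1 + s ^ 2) * ((1 + s ^ 2) * a ^ 2) < (1 + s ^ 2) * l ^ 2 := by nlinarith [sq_nonneg l]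
        exact lt_of_mul_lt_mul_left h9 hp.le

lemma norm_e {e : ℂ} (he : ‖e‖ = 1) (x y : ℝ) : ‖((x : ℂ) + (y : ℂ) * I) * e‖ = √(x ^ 2 + y ^ 2) := by
  rw [norm_mul, he, mul_one, Complex.norm_add_mul_I]


lemma sq_one {u : ℂ} (hu : ‖u‖ = 1) : u.re ^ 2 + u.im ^ 2 = 1 := by
  have h := Complex.sq_norm u
  rw [hu, Complex.normSq_apply] at h
  nlinarith

/-- coordinates adapted to the side `k` -/
lemma coords (p : Fin (1 + 3) → ℂ) (hp : IsConvexPolygon p) (k : Fin (1 + 3)) :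
    ∃ (e : ℂ) (a b : ℝ), ‖e‖ = 1 ∧ 0 < a ∧ 0 < b ∧ 0 < ‖p (k + 1) - p k‖ ∧
      p (k + 1) = p k + (((‖p (k + 1) - p k‖ : ℝ) : ℂ) + ((0 : ℝ) : ℂ) * I) * e ∧
      p (k + 3) = p k + (((sk (nu p) k * a : ℝ) : ℂ) + (a : ℂ) * I) * e ∧
      p (k + 2) = p k + (((‖p (k + 1) - p k‖ - sk (nu p) (k + 1) * b : ℝ) : ℂ) + (b : ℂ) * I) * e := by
  have hinj := (Pool.Agent.W174.PG.basic _ p hp).1
  obtain ⟨l0, e0⟩ := Pool.Agent.R225.LP.side_eq hinj k
  obtain ⟨l1, e1⟩ := Pool.Agent.R225.LP.side_eq hinj (k + 1)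
  obtain ⟨l2, e2⟩ := Pool.Agent.R225.LP.side_eq hinj (k - 1)
  have hk1 : k - 1 + 1 = k := sub_add_cancel k 1
  have hk3 : k + 3 = k - 1 := (by decide : ∀ k : Fin (1 + 3), k + 3 = k - 1) k
  have hk2 : k + 1 + 1 = k + 2 := (by decide : ∀ k : Fin (1 + 3), k + 1 + 1 = k + 2) k
  have hk4 : k + 1 - 1 = k := add_sub_cancel_right k 1
  have c0 := Pool.Agent.R225.LP.cr_nu hinj hp (k - 1)
  have c1 := Pool.Agent.R225.LP.cr_nu hinj hp k
  have n0 := Pool.Agent.R225.LP.norm_nu hinj k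
  rw [hk1] at c0 e2 l2
  rw [hk2] at e1 l1
  have n1 := sq_one n0
  set u := nu p k with hu
  set v := nu p (k + 1) with hv
  set w := nu p (k - 1) with hw
  set L := ‖p (k + 1) - p k‖ with hL
  set L1 := ‖p (k + 2) - p (k + 1)‖ with hL1
  set L2 := ‖p k - p (k - 1)‖ with hL2
  have s0 : sk (nu p) k = -(ip w u / cr w u) := by simp only [sk, ← hu, ← hw]
  have s1 : sk (nu p) (k + 1) = -(ip u v / cr u v) := by simp only [sk, hk4, ← hu, ← hv]
  refine ⟨I * u, L2 * cr w u, L1 * cr u v, by rw [norm_mul, Complex.norm_I, n0, one_mul], mul_pos l2 c0,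
    mul_pos l1 c1, l0, ?_, ?_, ?_⟩
  · rw [Complex.ofReal_zero, zero_mul, add_zero, ← e0]; ring
  · have h1 : sk (nu p) k * (L2 * cr w u) = -(L2 * ip w u) := by
      rw [s0]; field_simp
    rw [h1, hk3]
    have h2 : p (k - 1) = p k - (L2 : ℂ) * (I * w) := by rw [← e2]; ring
    rw [h2]
    apply Complex.ext
    · simp only [Complex.add_re, Complex.sub_re, Complex.mul_re, Complex.ofReal_re, Complex.ofReal_im,
        Complex.add_im, Complex.mul_im, Complex.I_re, Complex.I_im, ip, cr]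
      linear_combination (-(L2 * w.im)) * n1
    · simp only [Complex.add_re, Complex.sub_im, Complex.mul_re, Complex.ofReal_re, Complex.ofReal_im,
        Complex.add_im, Complex.mul_im, Complex.I_re, Complex.I_im, ip, cr]
      linear_combination (L2 * w.re) * n1
  · have h1 : L - sk (nu p) (k + 1) * (L1 * cr u v) = L + L1 * ip u v := by
      rw [s1]; field_simp; ring
    rw [h1]
    have h2 : p (k + 2) = p k + (L : ℂ) * (I * u) + (L1 : ℂ) * (I * v) := by
      rw [← e1, ← e0]; ring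
    rw [h2]
    apply Complex.ext
    · simp only [Complex.add_re, Complex.mul_re, Complex.ofReal_re, Complex.ofReal_im,
        Complex.add_im, Complex.mul_im, Complex.I_re, Complex.I_im, ip, cr]
      linear_combination (L1 * v.im) * n1
    · simp only [Complex.add_re, Complex.mul_re, Complex.ofReal_re, Complex.ofReal_im,
        Complex.add_im, Complex.mul_im, Complex.I_re, Complex.I_im, ip, cr]
      linear_combination (-(L1 * v.re)) * n1

/-- points of a segment in coordinates -/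
lemma seg_co {q e : ℂ} {x1 y1 x2 y2 : ℝ} {z : ℂ}
    (hz : z ∈ segment ℝ (q + ((x1 : ℂ) + (y1 : ℂ) * I) * e) (q + ((x2 : ℂ) + (y2 : ℂ) * I) * e)) :
    ∃ τ : ℝ, 0 ≤ τ ∧ τ ≤ 1 ∧
      z = q + (((x1 + τ * (x2 - x1) : ℝ) : ℂ) + ((y1 + τ * (y2 - y1) : ℝ) : ℂ) * I) * e := by
  rw [segment_eq_image'] at hz
  obtain ⟨τ, ⟨h0, h1⟩, rfl⟩ := hz
  refine ⟨τ, h0, h1, ?_⟩
  simp only [Complex.real_smul]
  push_cast
  ring

lemma co_seg (q e : ℂ) (x1 y1 x2 y2 τ : ℝ) (h0 : 0 ≤ τ) (h1 : τ ≤ 1) :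
    q + (((x1 + τ * (x2 - x1) : ℝ) : ℂ) + ((y1 + τ * (y2 - y1) : ℝ) : ℂ) * I) * e ∈
      segment ℝ (q + ((x1 : ℂ) + (y1 : ℂ) * I) * e) (q + ((x2 : ℂ) + (y2 : ℂ) * I) * e) := by
  rw [segment_eq_image']
  refine ⟨τ, ⟨h0, h1⟩, ?_⟩
  simp only [Complex.real_smul]
  push_cast
  ring

lemma dist_co {e : ℂ} (he : ‖e‖ = 1) (q : ℂ) (x1 y1 x2 y2 : ℝ) :
    dist (q + ((x1 : ℂ) + (y1 : ℂ) * I) * e) (q + ((x2 : ℂ) + (y2 : ℂ) * I) * e) =
      √((x1 - x2) ^ 2 + (y1 - y2) ^ 2) := by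
  rw [dist_eq_norm, ← norm_e he]
  congr 1
  push_cast
  ring

lemma dk_sq (l m : ℝ) (hl : 0 < l) : 0 < l / √(1 + m ^ 2) ∧
    (l / √(1 + m ^ 2)) ^ 2 * (1 + m ^ 2) = l ^ 2 := by
  have h : (0 : ℝ) < 1 + m ^ 2 := by positivity
  refine ⟨by positivity, ?_⟩
  rw [div_pow, Real.sq_sqrt h.le]
  field_simp

/-- the first main lemma -/
lemma lemA1 (p : Fin (1 + 3) → ℂ) (hp : IsConvexPolygon p) (k : Fin (1 + 3))
    (hS : sk (nu p) k + sk (nu p) (k + 1) ≤ 0) {x y : ℂ}
    (hx : x ∈ segment ℝ (p (k + 1)) (p (k + 2))) (hy : y ∈ segment ℝ (p (k + 3)) (p k)) :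
    dk p k ≤ dist x y := by
  obtain ⟨e, a, b, he, ha, hb, hl, e1, e3, e2⟩ := coords p hp k
  rw [e1, e2] at hx
  have e0 : p k = p k + (((0 : ℝ) : ℂ) + ((0 : ℝ) : ℂ) * I) * e := by simp
  have hy' : y ∈ segment ℝ (p k + (((sk (nu p) k * a : ℝ) : ℂ) + (a : ℂ) * I) * e)
      (p k + (((0 : ℝ) : ℂ) + ((0 : ℝ) : ℂ) * I) * e) := by
    rw [← e0, ← e3]; exact hy
  obtain ⟨τ, t0, t1, rfl⟩ := seg_co hx
  obtain ⟨υ, u0, u1, rfl⟩ := seg_co hy'
  rw [dist_co he]
  set l := ‖p (k + 1) - p k‖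
  set s := sk (nu p) k
  set s' := sk (nu p) (k + 1)
  rw [dk]
  obtain ⟨d0, d1⟩ := dk_sq l (max 0 (max s s')) hl
  refine Real.le_sqrt_of_sq_le ?_
  have h := core1 l s s' ((1 - υ) * a) (τ * b) hl hS (by nlinarith) (by nlinarith)
  have hm : 0 < 1 + (max 0 (max s s')) ^ 2 := by positivity
  rw [← d1, mul_comm] at h
  have h2 := le_of_mul_le_mul_left h hm
  refine h2.trans (le_of_eq ?_)
  ring

/-- the second main lemma -/
lemma lemA2 (p : Fin (1 + 3) → ℂ) (hp : IsConvexPolygon p) (k : Fin (1 + 3)) :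
    (∃ x ∈ segment ℝ (p (k + 1)) (p (k + 2)), ∃ y ∈ segment ℝ (p (k + 3)) (p k),
      dist x y = dk p k) ∨
    ∃ x ∈ segment ℝ (p k) (p (k + 1)), ∃ y ∈ segment ℝ (p (k + 2)) (p (k + 3)),
      dist x y < dk p k := by
  obtain ⟨e, a, b, he, ha, hb, hl, e1, e3, e2⟩ := coords p hp k
  have e0 : p k = p k + (((0 : ℝ) : ℂ) + ((0 : ℝ) : ℂ) * I) * e := by simp
  have hd : dk p k = ‖p (k + 1) - p k‖ / √(1 + (max 0 (max (sk (nu p) k) (sk (nu p) (k + 1)))) ^ 2) := rfl
  set l := ‖p (k + 1) - p k‖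
  set s := sk (nu p) k
  set s' := sk (nu p) (k + 1)
  obtain ⟨d0, d1⟩ := dk_sq l (max 0 (max s s')) hl
  rw [← hd] at d0 d1
  have hm : 0 < 1 + (max 0 (max s s')) ^ 2 := by positivity
  rcases core2 l s s' a b hl ha hb with ⟨A, B, hA0, hA, hB0, hB, h⟩ | ⟨h0, h1, h⟩ | ⟨h0, h1, h⟩
  · left
    refine ⟨p k + (((l + (B / b) * ((l - s' * b) - l) : ℝ) : ℂ) +
        ((0 + (B / b) * (b - 0) : ℝ) : ℂ) * I) * e, ?_,
      p k + (((s * a + (1 - A / a) * (0 - s * a) : ℝ) : ℂ) +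
        ((a + (1 - A / a) * (0 - a) : ℝ) : ℂ) * I) * e, ?_, ?_⟩
    · rw [e1, e2]
      exact co_seg _ _ _ _ _ _ _ (by positivity) ((div_le_one hb).2 hB)
    · have h5 := co_seg (p k) e (s * a) a 0 0 (1 - A / a) (by
        have := (div_le_one ha).2 hA
        linarith) (by
        have : 0 ≤ A / a := by positivity
        linarith)
      rw [← e0, ← e3] at h5
      exact h5
    · rw [dist_co he]
      have h6 : (l + B / b * (l - s' * b - l) - (s * a + (1 - A / a) * (0 - s * a))) ^ 2 +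
          (0 + B / b * (b - 0) - (a + (1 - A / a) * (0 - a))) ^ 2 = dk p k ^ 2 := by
        rw [← d1] at h
        have h7 : (l - s' * B - s * A) ^ 2 + (B - A) ^ 2 = dk p k ^ 2 := by
          have h8 : (1 + (max 0 (max s s')) ^ 2) * ((l - s' * B - s * A) ^ 2 + (B - A) ^ 2) =
            (1 + (max 0 (max s s')) ^ 2) * dk p k ^ 2 := by rw [h]; ring
          exact mul_left_cancel₀ hm.ne' h8
        rw [← h7]
        have h9 : B / b * b = B := div_mul_cancel₀ B hb.ne'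
        have h10 : A / a * a = A := div_mul_cancel₀ A ha.ne'
        have h11 : l + B / b * (l - s' * b - l) - (s * a + (1 - A / a) * (0 - s * a)) =
            l - s' * (B / b * b) - s * (A / a * a) := by ring
        have h12 : 0 + B / b * (b - 0) - (a + (1 - A / a) * (0 - a)) = B / b * b - A / a * a := by ring
        rw [h11, h12, h9, h10]
      rw [h6, Real.sqrt_sq d0.le]
  · right
    refine ⟨p k + (((0 + (s * a / l) * (l - 0) : ℝ) : ℂ) +
      ((0 + (s * a / l) * (0 - 0) : ℝ) : ℂ) * I) * e, ?_, p (k + 3), right_mem_segment ℝ _ _, ?_⟩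
    · have h5 := co_seg (p k) e 0 0 l 0 (s * a / l) (by positivity) ((div_le_one hl).2 h1)
      rw [← e0, ← e1] at h5
      exact h5
    · rw [e3, dist_co he]
      have h9 : s * a / l * l = s * a := div_mul_cancel₀ _ hl.ne'
      have h10 : (0 + s * a / l * (l - 0) - s * a) ^ 2 + (0 + s * a / l * (0 - 0) - a) ^ 2 = a ^ 2 := by
        have : 0 + s * a / l * (l - 0) - s * a = 0 := by rw [sub_zero, h9]; ring
        rw [this]; ring
      rw [h10, Real.sqrt_sq ha.le]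
      rw [← d1, mul_comm (dk p k ^ 2)] at h
      have h11 := lt_of_mul_lt_mul_left h hm.le
      exact lt_of_pow_lt_pow_left₀ 2 d0.le h11
  · right
    refine ⟨p k + (((0 + ((l - s' * b) / l) * (l - 0) : ℝ) : ℂ) +
      ((0 + ((l - s' * b) / l) * (0 - 0) : ℝ) : ℂ) * I) * e, ?_, p (k + 2),
      left_mem_segment ℝ _ _, ?_⟩
    · have h5 := co_seg (p k) e 0 0 l 0 ((l - s' * b) / l) (by positivity) ((div_le_one hl).2 h1)
      rw [← e0, ← e1] at h5
      exact h5
    · rw [e2, dist_co he]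
      have h9 : (l - s' * b) / l * l = l - s' * b := div_mul_cancel₀ _ hl.ne'
      have h10 : (0 + (l - s' * b) / l * (l - 0) - (l - s' * b)) ^ 2 + (0 + (l - s' * b) / l * (0 - 0) - b) ^ 2 = b ^ 2 := by
        have : 0 + (l - s' * b) / l * (l - 0) - (l - s' * b) = 0 := by rw [sub_zero, h9]; ring
        rw [this]; ring
      rw [h10, Real.sqrt_sq hb.le]
      rw [← d1, mul_comm (dk p k ^ 2)] at h
      have h11 := lt_of_mul_lt_mul_left h hm.le
      exact lt_of_pow_lt_pow_left₀ 2 d0.le h11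

/-! ### The distances of opposite sides -/

/-- distances between the side `k` and the side `k + 2` -/
def DD (p : Fin (1 + 3) → ℂ) (k : Fin (1 + 3)) : Set ℝ :=
  {r : ℝ | ∃ x ∈ segment ℝ (p k) (p (k + 1)), ∃ y ∈ segment ℝ (p (k + 2)) (p (k + 3)),
    r = dist x y}

lemma ds_def (p : Fin (1 + 3) → ℂ) (k : Fin (1 + 3)) : ds p k = sInf (DD p k) := rfl

lemma DD_bdd (p : Fin (1 + 3) → ℂ) (k : Fin (1 + 3)) : BddBelow (DD p k) :=
  ⟨0, by rintro r ⟨x, _, y, _, rfl⟩; exact dist_nonneg⟩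

lemma DD_ne (p : Fin (1 + 3) → ℂ) (k : Fin (1 + 3)) : (DD p k).Nonempty :=
  ⟨_, _, left_mem_segment ℝ _ _, _, left_mem_segment ℝ _ _, rfl⟩

lemma ds_le {p : Fin (1 + 3) → ℂ} {k : Fin (1 + 3)} {x y : ℂ}
    (hx : x ∈ segment ℝ (p k) (p (k + 1))) (hy : y ∈ segment ℝ (p (k + 2)) (p (k + 3))) :
    ds p k ≤ dist x y := by
  rw [ds_def]
  exact csInf_le (DD_bdd p k) ⟨x, hx, y, hy, rfl⟩

lemma DD_symm (p : Fin (1 + 3) → ℂ) (k : Fin (1 + 3)) : DD p (k + 2) = DD p k := by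
  have h1 : k + 2 + 1 = k + 3 := (by decide : ∀ k : Fin (1 + 3), k + 2 + 1 = k + 3) k
  have h2 : k + 2 + 2 = k := (by decide : ∀ k : Fin (1 + 3), k + 2 + 2 = k) k
  have h3 : k + 2 + 3 = k + 1 := (by decide : ∀ k : Fin (1 + 3), k + 2 + 3 = k + 1) k
  ext r
  simp only [DD, mem_ofPred_eq, h1, h2, h3]
  constructor
  · rintro ⟨x, hx, y, hy, rfl⟩
    exact ⟨y, hy, x, hx, dist_comm x y⟩
  · rintro ⟨x, hx, y, hy, rfl⟩
    exact ⟨y, hy, x, hx, dist_comm x y⟩

lemma ds_symm (p : Fin (1 + 3) → ℂ) (k : Fin (1 + 3)) : ds p (k + 2) = ds p k := by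
  rw [ds_def, ds_def, DD_symm]

lemma sd_min (p : Fin (1 + 3) → ℂ) (k : Fin (1 + 3)) : sd p = min (ds p k) (ds p (k + 1)) := by
  apply le_antisymm
  · apply le_min
    · rw [ds_def]
      refine le_csInf (DD_ne p k) ?_
      rintro r ⟨x, hx, y, hy, rfl⟩
      have h := (by decide : ∀ k : Fin (1 + 3), k + 2 ≠ k ∧ k + 2 ≠ k + 1 ∧ k ≠ k + 2 + 1 ∧
        k + 2 + 1 = k + 3) k
      refine Pool.Agent.R225.LP.ID.sd_le h.1 h.2.1 h.2.2.1 hx ?_
      rw [h.2.2.2]; exact hy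
    · rw [ds_def]
      refine le_csInf (DD_ne p (k + 1)) ?_
      rintro r ⟨x, hx, y, hy, rfl⟩
      have h := (by decide : ∀ k : Fin (1 + 3), k + 1 + 2 ≠ k + 1 ∧ k + 1 + 2 ≠ k + 1 + 1 ∧
        k + 1 ≠ k + 1 + 2 + 1 ∧ k + 1 + 2 + 1 = k + 1 + 3) k
      refine Pool.Agent.R225.LP.ID.sd_le h.1 h.2.1 h.2.2.1 hx ?_
      rw [h.2.2.2]; exact hy
  · obtain ⟨i, j, h1, h2, h3, x, hx, y, hy, h⟩ := Pool.Agent.R225.LP.ID.sd_att p
    have hj : j = i + 2 := (by decide : ∀ i j : Fin (1 + 3), j ≠ i → j ≠ i + 1 → i ≠ j + 1 →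
      j = i + 2) i j h1 h2 h3
    subst hj
    have h4 : i + 2 + 1 = i + 3 := (by decide : ∀ k : Fin (1 + 3), k + 2 + 1 = k + 3) i
    rw [h4] at hy
    have h5 : ds p i ≤ dist x y := ds_le hx hy
    rw [h]
    refine le_trans ?_ h5
    rcases (by decide : ∀ i k : Fin (1 + 3), i = k ∨ i = k + 1 ∨ i = k + 2 ∨ i = k + 1 + 2) i k
      with rfl | rfl | rfl | rfl
    · exact min_le_left _ _
    · exact min_le_right _ _
    · rw [ds_symm]; exact min_le_left _ _
    · rw [ds_symm]; exact min_le_right _ _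

/-- the main lemma in terms of `ds` -/
lemma lemA (p : Fin (1 + 3) → ℂ) (hp : IsConvexPolygon p) (k : Fin (1 + 3))
    (hS : sk (nu p) k + sk (nu p) (k + 1) ≤ 0) :
    dk p k ≤ ds p (k + 1) ∧ (ds p (k + 1) = dk p k ∨ ds p k < dk p k) := by
  have e2 : k + 1 + 1 = k + 2 := (by decide : ∀ k : Fin (1 + 3), k + 1 + 1 = k + 2) k
  have e3 : k + 1 + 2 = k + 3 := (by decide : ∀ k : Fin (1 + 3), k + 1 + 2 = k + 3) k
  have e4 : k + 1 + 3 = k := (by decide : ∀ k : Fin (1 + 3), k + 1 + 3 = k) k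
  have h1 : dk p k ≤ ds p (k + 1) := by
    rw [ds_def]
    refine le_csInf (DD_ne p (k + 1)) ?_
    rintro r ⟨x, hx, y, hy, rfl⟩
    rw [e2] at hx
    rw [e3, e4] at hy
    exact lemA1 p hp k hS hx hy
  refine ⟨h1, ?_⟩
  rcases lemA2 p hp k with ⟨x, hx, y, hy, h⟩ | ⟨x, hx, y, hy, h⟩
  · left
    refine le_antisymm ?_ h1
    rw [← h]
    refine ds_le ?_ ?_
    · rw [e2]; exact hx
    · rw [e3, e4]; exact hy
  · right
    exact lt_of_le_of_lt (ds_le hx hy) h

/-- the sign of the sum of the parameters -/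
lemma sum_sk (p : Fin (1 + 3) → ℂ) (hp : IsConvexPolygon p) (k : Fin (1 + 3)) :
    0 < cr (nu p (k - 1)) (nu p k) ∧ 0 < cr (nu p k) (nu p (k + 1)) ∧
    (sk (nu p) k + sk (nu p) (k + 1)) * (cr (nu p (k - 1)) (nu p k) * cr (nu p k) (nu p (k + 1))) =
      -cr (nu p (k - 1)) (nu p (k + 1)) := by
  have hinj := (Pool.Agent.W174.PG.basic _ p hp).1
  have c0 := Pool.Agent.R225.LP.cr_nu hinj hp (k - 1)
  have c1 := Pool.Agent.R225.LP.cr_nu hinj hp k
  have n1 := sq_one (Pool.Agent.R225.LP.norm_nu hinj k)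
  rw [sub_add_cancel] at c0
  refine ⟨c0, c1, ?_⟩
  rw [sk, sk, add_sub_cancel_right]
  field_simp
  simp only [ip, cr]
  linear_combination (-((nu p (k - 1)).re * (nu p (k + 1)).im - (nu p (k - 1)).im * (nu p (k + 1)).re)) * n1

lemma opp (p : Fin (1 + 3) → ℂ) (hp : IsConvexPolygon p) (k : Fin (1 + 3)) :
    (sk (nu p) k + sk (nu p) (k + 1) < 0 → 0 < sk (nu p) (k + 2) + sk (nu p) (k + 2 + 1)) ∧
    (0 < sk (nu p) k + sk (nu p) (k + 1) → sk (nu p) (k + 2) + sk (nu p) (k + 2 + 1) ≤ 0) := by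
  obtain ⟨a1, a2, a3⟩ := sum_sk p hp k
  obtain ⟨b1, b2, b3⟩ := sum_sk p hp (k + 2)
  have e1 : k + 2 - 1 = k + 1 := (by decide : ∀ k : Fin (1 + 3), k + 2 - 1 = k + 1) k
  have e2 : k + 2 + 1 = k - 1 := (by decide : ∀ k : Fin (1 + 3), k + 2 + 1 = k - 1) k
  rw [e1] at b1 b3
  rw [e2] at b2 b3
  rw [e2]
  have e3 : cr (nu p (k + 1)) (nu p (k - 1)) = -cr (nu p (k - 1)) (nu p (k + 1)) := by
    simp only [cr]; ring
  rw [e3, neg_neg] at b3
  have A := mul_pos a1 a2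
  have B := mul_pos b1 b2
  constructor
  · intro h
    have h1 : 0 < cr (nu p (k - 1)) (nu p (k + 1)) := by
      have := mul_neg_of_neg_of_pos h A
      linarith
    rw [← b3] at h1
    exact (mul_pos_iff_of_pos_right B).1 h1
  · intro h
    have h1 : cr (nu p (k - 1)) (nu p (k + 1)) < 0 := by
      have := mul_pos h A
      linarith
    by_contra h2
    push Not at h2
    have := mul_pos h2 B
    linarith

/-- parallel neighbours -/
lemma par (p : Fin (1 + 3) → ℂ) (hp : IsConvexPolygon p) (k : Fin (1 + 3))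
    (hS : sk (nu p) k + sk (nu p) (k + 1) = 0) :
    nu p (k + 1 + 2) = -nu p (k + 1) ∧ co p (k + 1) + co p (k + 1 + 2) = dk p k := by
  have hinj := (Pool.Agent.W174.PG.basic _ p hp).1
  obtain ⟨c0, c1, a3⟩ := sum_sk p hp k
  have e1 : k + 1 + 2 = k - 1 := (by decide : ∀ k : Fin (1 + 3), k + 1 + 2 = k - 1) k
  rw [e1]
  rw [hS, zero_mul] at a3
  have n0 := sq_one (Pool.Agent.R225.LP.norm_nu hinj (k - 1))
  have n1 := sq_one (Pool.Agent.R225.LP.norm_nu hinj k)
  have n2 := sq_one (Pool.Agent.R225.LP.norm_nu hinj (k + 1))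
  obtain ⟨l0, s0⟩ := Pool.Agent.R225.LP.side_eq hinj k
  obtain ⟨l2, s2⟩ := Pool.Agent.R225.LP.side_eq hinj (k - 1)
  rw [sub_add_cancel] at s2 l2
  have hd : dk p k = ‖p (k + 1) - p k‖ / √(1 + (max 0 (max (sk (nu p) k) (sk (nu p) (k + 1)))) ^ 2) := rfl
  have hs' : sk (nu p) (k + 1) = -(ip (nu p k) (nu p (k + 1)) / cr (nu p k) (nu p (k + 1))) := by
    rw [sk, add_sub_cancel_right]
  set u := nu p k with hu
  set v := nu p (k + 1) with hv
  set w := nu p (k - 1) with hw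
  set L := ‖p (k + 1) - p k‖ with hL
  -- w = -v
  have hwv : w = -v := by
    have hc : w.re * v.im - w.im * v.re = 0 := by
      have : cr w v = 0 := by linarith
      simpa only [cr] using this
    have hdot : (w.re * v.re + w.im * v.im) ^ 2 = 1 := by
      have : (w.re * v.re + w.im * v.im) ^ 2 + (w.re * v.im - w.im * v.re) ^ 2 =
        (w.re ^ 2 + w.im ^ 2) * (v.re ^ 2 + v.im ^ 2) := by ring
      rw [hc, n0, n2] at this
      linarith
    have hw1 : w.re = (w.re * v.re + w.im * v.im) * v.re := by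
      linear_combination (-w.re) * n2 + v.im * hc
    have hw2 : w.im = (w.re * v.re + w.im * v.im) * v.im := by
      linear_combination (-w.im) * n2 - v.re * hc
    generalize w.re * v.re + w.im * v.im = q at hdot hw1 hw2
    have h0 : (q - 1) * (q + 1) = 0 := by linear_combination hdot
    rcases mul_eq_zero.1 h0 with h | h
    · exfalso
      have hq : q = 1 := by linarith
      rw [hq, one_mul] at hw1 hw2
      simp only [cr] at c0 c1
      rw [hw1, hw2] at c0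
      linarith
    · have hq : q = -1 := by linarith
      rw [hq, neg_one_mul] at hw1 hw2
      exact Complex.ext hw1 hw2
  have hm : (max 0 (max (sk (nu p) k) (sk (nu p) (k + 1)))) ^ 2 = sk (nu p) (k + 1) ^ 2 := by
    have h1 : sk (nu p) k = -sk (nu p) (k + 1) := by linarith
    rw [h1]
    rcases le_total 0 (sk (nu p) (k + 1)) with h | h
    · rw [max_eq_right (show -sk (nu p) (k + 1) ≤ sk (nu p) (k + 1) by linarith), max_eq_right h]
    · rw [max_eq_left (show sk (nu p) (k + 1) ≤ -sk (nu p) (k + 1) by linarith),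
        max_eq_right (by linarith), neg_sq]
  refine ⟨hwv, ?_⟩
  have hsq : 1 + (max 0 (max (sk (nu p) k) (sk (nu p) (k + 1)))) ^ 2 = (1 / cr u v) ^ 2 := by
    rw [hm, hs']
    field_simp
    simp only [ip, cr]
    linear_combination (v.re ^ 2 + v.im ^ 2) * n1 + n2
  rw [hd, hsq, Real.sqrt_sq (by positivity)]
  have hco1 : co p (k + 1) = ip v (p (k + 1)) := rfl
  have hco2 : co p (k - 1) = ip w (p (k - 1)) := rfl
  rw [hco1, hco2]
  have f1 : p (k + 1) = p k + (L : ℂ) * (I * u) := by rw [← s0]; ring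
  have f2 : p (k - 1) = p k - (‖p k - p (k - 1)‖ : ℂ) * (I * w) := by rw [← s2]; ring
  generalize ‖p k - p (k - 1)‖ = R at f2
  rw [f1, f2, hwv]
  simp only [ip, cr, Complex.add_re, Complex.add_im, Complex.sub_re, Complex.sub_im, Complex.mul_re,
    Complex.mul_im, Complex.ofReal_re, Complex.ofReal_im, Complex.I_re, Complex.I_im,
    Complex.neg_re, Complex.neg_im]
  field_simp
  ring

theorem cl : S_CL := by
  intro p hp hne
  -- the smaller distance
  obtain ⟨m, hm⟩ : ∃ m : Fin (1 + 3), ds p (m + 1) < ds p m := by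
    rcases lt_or_gt_of_ne hne with h | h
    · refine ⟨3, ?_⟩
      have h1 : ds p (3 + 1) = ds p 0 := by congr 1
      have h2 : ds p 3 = ds p 1 := by
        have := ds_symm p 1
        rw [← this]; congr 1
      rw [h1, h2]; exact h
    · exact ⟨0, by simpa using h⟩
  obtain ⟨k, hk, hS⟩ : ∃ k : Fin (1 + 3), ds p (k + 1) < ds p k ∧
      sk (nu p) k + sk (nu p) (k + 1) ≤ 0 := by
    rcases le_or_gt (sk (nu p) m + sk (nu p) (m + 1)) 0 with h | h
    · exact ⟨m, hm, h⟩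
    · refine ⟨m + 2, ?_, (opp p hp m).2 h⟩
      rw [ds_symm, (by decide : ∀ k : Fin (1 + 3), k + 2 + 1 = k + 1 + 2) m, ds_symm]
      exact hm
  obtain ⟨h1, h2⟩ := lemA p hp k hS
  have h3 : ds p (k + 1) = dk p k := by
    rcases h2 with h2 | h2
    · exact h2
    · linarith
  rcases hS.lt_or_eq with hS | hS
  · left
    refine ⟨k, hS, ?_⟩
    intro j hj hSj
    obtain ⟨a1, a2⟩ := lemA p hp j hSj
    rcases (by decide : ∀ j k : Fin (1 + 3), j = k ∨ j = k + 2 ∨ j = k + 1 ∨ j = k + 1 + 2) j k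
      with rfl | rfl | rfl | rfl
    · exact absurd rfl hj
    · exact absurd hSj (not_le.2 ((opp p hp k).1 hS))
    · have e : k + 1 + 1 = k + 2 := (by decide : ∀ k : Fin (1 + 3), k + 1 + 1 = k + 2) k
      rw [e, ds_symm] at a1 a2
      rcases a2 with a2 | a2
      · linarith
      · linarith
    · have e : k + 1 + 2 + 1 = k + 2 + 2 :=
        (by decide : ∀ k : Fin (1 + 3), k + 1 + 2 + 1 = k + 2 + 2) k
      rw [e, ds_symm, ds_symm] at a1 
      rw [e, ds_symm, ds_symm, ds_symm] at a2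
      rcases a2 with a2 | a2
      · linarith
      · linarith
  · right
    refine ⟨k + 1, (par p hp k hS).1, ?_⟩
    rw [(par p hp k hS).2, sd_min p k, min_eq_right hk.le, h3]

theorem cd : S_CD := by
  intro p k hp hF
  obtain ⟨hS, hF⟩ := hF
  obtain ⟨h1, h2⟩ := lemA p hp k hS.le
  have hj : ∃ j : Fin (1 + 3), (j = k + 1 ∨ j = k + 1 + 2) ∧
      sk (nu p) j + sk (nu p) (j + 1) ≤ 0 := by
    rcases le_or_gt (sk (nu p) (k + 1) + sk (nu p) (k + 1 + 1)) 0 with h | h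
    · exact ⟨k + 1, Or.inl rfl, h⟩
    · exact ⟨k + 1 + 2, Or.inr rfl, (opp p hp (k + 1)).2 h⟩
  obtain ⟨j, hj, hSj⟩ := hj
  have hjk : j ≠ k := by
    rcases hj with rfl | rfl
    · exact (by decide : ∀ k : Fin (1 + 3), k + 1 ≠ k) k
    · exact (by decide : ∀ k : Fin (1 + 3), k + 1 + 2 ≠ k) k
  have h4 := hF j hjk hSj
  obtain ⟨a1, -⟩ := lemA p hp j hSj
  have h5 : ds p (j + 1) = ds p k := by
    rcases hj with rfl | rfl
    · have e : k + 1 + 1 = k + 2 := (by decide : ∀ k : Fin (1 + 3), k + 1 + 1 = k + 2) k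
      rw [e, ds_symm]
    · have e : k + 1 + 2 + 1 = k + 2 + 2 :=
        (by decide : ∀ k : Fin (1 + 3), k + 1 + 2 + 1 = k + 2 + 2) k
      rw [e, ds_symm, ds_symm]
  rw [h5] at a1
  have h6 : ds p (k + 1) = dk p k := by
    rcases h2 with h2 | h2
    · exact h2
    · linarith
  rw [sd_min p k, h6]
  exact min_eq_right (by linarith)

end Pool.Agent.N885.QD
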